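import Mathlib
import Pool.Agent.H58.IPlusT

set_option autoImplicit false

namespace Pool.Agent.Results.MP_550623_an.Disproof

open Pool.Agent.H58.IPlusT

theorem result : ∀ (𝕜 : Type) [RCLike 𝕜],
    ∃ (X : Type) (_ : NormedAddCommGroup X) (_ : NormedSpace 𝕜 X),
      CompleteSpace X ∧ TopologicalSpace.SeparableSpace X ∧ Nontrivial X ∧
      ∃ T : X →L[𝕜] X, Dense (Set.range T) ∧ Dense {x : X | ∃ n : ℕ, 1 ≤ n ∧ T^[n] x = 0} ∧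
        (∃ U V : Set X, IsOpen U ∧ IsOpen V ∧ U.Nonempty ∧ V.Nonempty ∧
          ∀ n : ℕ, ∀ x ∈ U, (fun y => y + T y)^[n] x ∉ V) ∧
        ¬ ∃ x : X, Dense (Set.range fun n : ℕ => (fun y => y + T y)^[n] x) := by
  intro 𝕜 _
  let T' : M 𝕜 →L[𝕜] M 𝕜 := (T 𝕜).restrict T_mem
  have z0 : Z 𝕜 0 ∈ M 𝕜 := G_sub (Or.inr ⟨0, rfl⟩)
  have h1 : ∀ n (x : M 𝕜), ((T'^[n] x : M 𝕜) : Y 𝕜) = (T 𝕜)^[n] x := fun n x =>
    Function.Semiconj.iterate_right (f := Subtype.val) (ga := T') (fun _ => rfl) n x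
  have h2 : ∀ n (x : M 𝕜), (((fun y => y + T' y)^[n] x : M 𝕜) : Y 𝕜) = (S 𝕜)^[n] x := fun n x =>
    Function.Semiconj.iterate_right (f := Subtype.val) (ga := fun y : M 𝕜 => y + T' y)
      (fun y => add_sub_cancel (y : Y 𝕜) (S 𝕜 y)) n x
  have o1 : IsOpen {x : M 𝕜 | ‖(x : Y 𝕜) - Z 𝕜 0‖ < 1 / 2} := isOpen_lt (by fun_prop) continuous_const
  have o2 : IsOpen {x : M 𝕜 | ‖(x : Y 𝕜)‖ < 1 / 2} := isOpen_lt (by fun_prop) continuous_const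
  have n1 : {x : M 𝕜 | ‖(x : Y 𝕜) - Z 𝕜 0‖ < 1 / 2}.Nonempty := ⟨⟨_, z0⟩, by simp⟩
  have key : ∀ n : ℕ, ∀ x ∈ {x : M 𝕜 | ‖(x : Y 𝕜) - Z 𝕜 0‖ < 1 / 2},
      (fun y => y + T' y)^[n] x ∉ {x : M 𝕜 | ‖(x : Y 𝕜)‖ < 1 / 2} := fun n x hx h => by
    have := far _ hx n
    rw [← h2] at this
    exact lt_asymm this h
  have nt : Nontrivial (M 𝕜) := ⟨⟨_, z0⟩, 0, fun h => key 0 ⟨_, z0⟩ (by simp) (by rw [h]; simp)⟩
  refine ⟨M 𝕜, inferInstance, inferInstance,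
    (Submodule.isClosed_topologicalClosure _).completeSpace_coe, sep.separableSpace, nt, T',
    fun x => closure_subtype.2 ?_, fun x => closure_subtype.2 ?_,
    ⟨_, _, o1, o2, n1, ⟨0, by simp⟩, key⟩, ?_⟩
  · refine closure_mono ?_ (range_dense x.1 x.2)
    rintro _ ⟨F, hF, rfl⟩
    exact ⟨T' ⟨F, hF⟩, ⟨_, rfl⟩, rfl⟩
  · refine closure_mono ?_ x.2
    intro F hF
    obtain ⟨d, hd⟩ := nil F hF
    rw [FunLike.coe_pow_eq_iterate] at hd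
    exact ⟨⟨F, Submodule.le_topologicalClosure _ hF⟩,
      ⟨d + 1, by omega, Subtype.ext ((h1 _ _).trans hd)⟩, rfl⟩
  · rintro ⟨x, hx⟩
    obtain ⟨_, hk, k, rfl⟩ := hx.inter_open_nonempty _ o1 n1
    have : ∀ y : M 𝕜, Filter.NeBot (nhdsWithin y {y}ᶜ) := Module.punctured_nhds_neBot 𝕜 (M 𝕜)
    have h3 := (hx.sdiff_finite ((Set.finite_lt_nat k).image fun n => (fun y => y + T' y)^[n] x))
    obtain ⟨_, hj, ⟨j, rfl⟩, hj'⟩ := h3.inter_open_nonempty _ o2 ⟨0, by simp⟩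
    have hkj : k ≤ j := not_lt.1 fun h => hj' ⟨j, h, rfl⟩
    obtain ⟨i, rfl⟩ := Nat.exists_eq_add_of_le' hkj
    refine key i _ hk ?_
    rwa [← Function.iterate_add_apply]

end Pool.Agent.Results.MP_550623_an.Disproof
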